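import Mathlib

/-! # `A₄ × (C₂)^m` is R-sequenceable for every `m` -/

namespace Pool.Agent.Results.MP_0ef4f9_co.ElementaryAbelianFactor

/-- R-sequenceable groups: the `n + 1 = |G|` elements can be listed as `a 0 = 1, a 1, …, a n`, each
element exactly once, such that the partial products `b i = a 0 * a 1 * ⋯ * a i`, `0 ≤ i ≤ n - 1`,
are pairwise distinct and `b n = 1`. -/
def RSequenceable (G : Type*) [Group G] : Prop :=
  ∃ (n : ℕ) (a b : ℕ → G), Nat.card G = n + 1 ∧ (∀ x : G, ∃! i, i < n + 1 ∧ a i = x) ∧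
    a 0 = 1 ∧ b 0 = a 0 ∧ (∀ i, b (i + 1) = b i * a (i + 1)) ∧
    (∀ i < n, ∀ j < n, b i = b j → i = j) ∧ b n = 1

/-- cyclic form: `N = |G| - 1` distinct elements with distinct cyclic quotients -/
def Cyc (G : Type*) [Group G] (N : ℕ) (g : ℕ → G) : Prop :=
  Nat.card G = N + 1 ∧ 2 ≤ N ∧ (∀ i < N, ∀ j < N, g i = g j → i = j) ∧
  (∀ i < N, ∀ j < N, (g i)⁻¹ * g ((i + 1) % N) = (g j)⁻¹ * g ((j + 1) % N) → i = j)

lemma Cyc.map {G G' : Type*} [Group G] [Group G'] (e : G ≃* G') {N : ℕ} {g : ℕ → G}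
    (h : Cyc G N g) : Cyc G' N (fun i => e (g i)) := by
  obtain ⟨h1, h2, h3, h4⟩ := h
  refine ⟨by rw [← Nat.card_congr e.toEquiv, h1], h2, ?_, ?_⟩
  · intro i hi j hj hij
    exact h3 i hi j hj (e.injective hij)
  · intro i hi j hj hij
    apply h4 i hi j hj
    apply e.injective
    simpa [map_mul, map_inv] using hij

lemma Cyc.rseq {G : Type*} [Group G] {N : ℕ} {g : ℕ → G} (h : Cyc G N g) : RSequenceable G := by
  obtain ⟨h1, h2, h3, h4⟩ := h
  have hfin : Finite G := Nat.finite_of_card_ne_zero (by omega)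
  set a : ℕ → G := fun i => match i with
    | 0 => 1
    | i + 1 => (g (i % N))⁻¹ * g ((i + 1) % N) with ha
  have hinj : Function.Injective (fun i : Fin (N + 1) => a i) := by
    rintro ⟨i, hi⟩ ⟨j, hj⟩ hij
    simp only at hij
    have hne : ∀ i < N, (g (i % N))⁻¹ * g ((i + 1) % N) ≠ 1 := by
      intro i hi h
      rw [inv_mul_eq_one] at h
      have := h3 _ (Nat.mod_lt _ (by omega)) _ (Nat.mod_lt _ (by omega)) h
      rw [Nat.mod_eq_of_lt hi] at this
      by_cases hi' : i + 1 < N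
      · rw [Nat.mod_eq_of_lt hi'] at this; omega
      · have e : i + 1 = N := by omega
        rw [e, Nat.mod_self] at this
        omega
    rcases i with _ | i <;> rcases j with _ | j
    · rfl
    · exact absurd hij.symm (hne j (by omega))
    · exact absurd hij (hne i (by omega))
    · have hi' : i < N := by omega
      have hj' : j < N := by omega
      simp only [ha, Nat.mod_eq_of_lt hi', Nat.mod_eq_of_lt hj'] at hij
      have := h4 i hi' j hj' hij
      simp [this]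
  have hbij : Function.Bijective (fun i : Fin (N + 1) => a i) := by
    have := Fintype.ofFinite G
    rw [Fintype.bijective_iff_injective_and_card]
    refine ⟨hinj, ?_⟩
    rw [Fintype.card_fin, ← Nat.card_eq_fintype_card, h1]
  refine ⟨N, a, fun i => (g 0)⁻¹ * g (i % N), h1, ?_, rfl, ?_, ?_, ?_, ?_⟩
  · intro x
    obtain ⟨⟨i, hi⟩, hx⟩ := hbij.2 x
    refine ⟨i, ⟨hi, hx⟩, ?_⟩
    rintro j ⟨hj, hjx⟩
    have := hinj (a₁ := ⟨j, hj⟩) (a₂ := ⟨i, hi⟩) (by simp only [hjx]; exact hx.symm)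
    simpa using this
  · simp [ha]
  · intro i
    simp only [ha]
    group
  · intro i hi j hj hij
    have := mul_left_cancel hij
    rw [Nat.mod_eq_of_lt hi, Nat.mod_eq_of_lt hj] at this
    exact h3 i hi j hj this
  · simp

section construction

variable {H : Type*} [Group H] {K : Type*} [Field K] (q : ℕ) (ω : K) (h : ℕ → H)

def eps (i : ℕ) : K := if i = 10 then ω ^ 2 + ω else if i % 2 = 0 then 1 else ω

def X (t : ℕ) : H :=
  if t < q - 1 then 1
  else if t < 12 * q - 12 then h ((t - (q - 1)) % 11)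
  else if t = 12 * q - 12 then h 10
  else h (t - (12 * q - 12) - 1)

def E (t : ℕ) : K :=
  if t < q - 1 then ω ^ (t + 1)
  else if t < 12 * q - 12 then ω ^ ((t - (q - 1)) / 11) * eps ω ((t - (q - 1)) % 11)
  else 0

def Q (j : ℕ) : H := (h j)⁻¹ * h ((j + 1) % 11)

def dl (i : ℕ) : K := if i = 10 then -ω ^ 2 else eps ω (i + 1) - eps ω i

variable {q ω h}

lemma class_vert (t : ℕ) (ht : t < 12 * q - 1) :
    (∃ a, X q h t = 1 ∧ E q ω t = ω ^ (a + 1) ∧ a < q - 1 ∧ t = a) ∨
    (∃ s, X q h t = h (s % 11) ∧ E q ω t = ω ^ (s / 11) * eps ω (s % 11) ∧ s < 11 * q - 11 ∧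
      t = q - 1 + s) ∨
    (∃ j, X q h t = h j ∧ E q ω t = 0 ∧ j < 11 ∧
      t = if j = 10 then 12 * q - 12 else 12 * q - 11 + j) := by
  by_cases h1 : t < q - 1
  · left
    exact ⟨t, by rw [X, if_pos h1], by rw [E, if_pos h1], h1, rfl⟩
  · by_cases h2 : t < 12 * q - 12
    · right; left
      exact ⟨t - (q - 1), by rw [X, if_neg h1, if_pos h2], by rw [E, if_neg h1, if_pos h2],
        by omega, by omega⟩
    · right; right
      by_cases h3 : t = 12 * q - 12
      · exact ⟨10, by rw [X, if_neg h1, if_neg h2, if_pos h3], by rw [E, if_neg h1, if_neg h2],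
          by omega, by rw [if_pos rfl, h3]⟩
      · refine ⟨t - (12 * q - 12) - 1, by rw [X, if_neg h1, if_neg h2, if_neg h3],
          by rw [E, if_neg h1, if_neg h2], by omega, ?_⟩
        rw [if_neg (by omega)]; omega

lemma class_col (hq : 4 ≤ q) (h2 : (2 : K) = 0) (hω1 : ω ^ (q - 1) = 1)
    (hs1 : h 10 = h 9 * h 0) (hs2 : h 10 = h 0 * h 9) (t t' : ℕ) (ht : t < 12 * q - 1)
    (ht' : (t' = t + 1 ∧ t + 1 < 12 * q - 1) ∨ (t' = 0 ∧ t + 1 = 12 * q - 1)) :
    (∃ a, (X q h t)⁻¹ * X q h t' = 1 ∧ E q ω t' - E q ω t = ω ^ a * (ω + 1) ∧ a < q - 1 ∧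
      t = if a = 0 then 12 * q - 13 else a - 1) ∨
    (∃ j, (X q h t)⁻¹ * X q h t' = Q h j ∧ E q ω t' - E q ω t = 0 ∧ j < 11 ∧
      t = if j = 9 then q - 2 else if j = 10 then 12 * q - 12 else 12 * q - 11 + j) ∨
    (∃ s, (X q h t)⁻¹ * X q h t' = Q h (s % 11) ∧
      E q ω t' - E q ω t = ω ^ (s / 11) * dl ω (s % 11) ∧ s < 11 * q - 11 ∧
      t = if s = 11 * q - 12 then 12 * q - 2 else q - 1 + s) := by
  have hX0 : ∀ t < q - 1, X q h t = 1 := fun t ht => by rw [X, if_pos ht]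
  have hE0 : ∀ t < q - 1, E q ω t = ω ^ (t + 1) := fun t ht => by rw [E, if_pos ht]
  have hX1 : ∀ s < 11 * q - 11, X q h (q - 1 + s) = h (s % 11) := fun s hs => by
    rw [X, if_neg (by omega), if_pos (by omega)]; congr 2; omega
  have hE1 : ∀ s < 11 * q - 11, E q ω (q - 1 + s) = ω ^ (s / 11) * eps ω (s % 11) :=
    fun s hs => by
      rw [E, if_neg (by omega), if_pos (by omega)]
      have : q - 1 + s - (q - 1) = s := by omega
      rw [this]
  have hX2 : X q h (12 * q - 12) = h 10 := by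
    rw [X, if_neg (by omega), if_neg (by omega), if_pos rfl]
  have hX3 : ∀ j < 10, X q h (12 * q - 11 + j) = h j := fun j hj => by
    rw [X, if_neg (by omega), if_neg (by omega), if_neg (by omega)]; congr 1; omega
  have hE2 : ∀ t, 12 * q - 12 ≤ t → E q ω t = 0 := fun t ht => by
    rw [E, if_neg (by omega), if_neg (by omega)]
  have hwq : ω ^ (q - 2) * ω = 1 := by
    rw [← pow_succ, show q - 2 + 1 = q - 1 by omega, hω1]
  by_cases c1 : t < q - 2
  · left
    refine ⟨t + 1, ?_, ?_, by omega, by rw [if_neg (by omega)]; omega⟩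
    · rcases ht' with ⟨rfl, _⟩ | ⟨_, h'⟩
      · rw [hX0 t (by omega), hX0 (t + 1) (by omega)]; simp
      · omega
    · rcases ht' with ⟨rfl, _⟩ | ⟨_, h'⟩
      · rw [hE0 t (by omega), hE0 (t + 1) (by omega)]
        linear_combination (-ω ^ (t + 1)) * h2
      · omega
  by_cases c2 : t = q - 2
  · right; left
    have e1 : t' = q - 1 + 0 := by omega
    refine ⟨9, ?_, ?_, by omega, by rw [if_pos rfl]; omega⟩
    · rw [hX0 t (by omega), e1, hX1 0 (by omega)]
      simp only [Q]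
      norm_num
      rw [hs1]; group
    · rw [hE0 t (by omega), e1, hE1 0 (by omega), show t + 1 = q - 1 by omega, hω1]
      simp [eps]
  by_cases c3 : t < 12 * q - 13
  · right; right
    obtain ⟨s, rfl⟩ : ∃ s, t = q - 1 + s := ⟨t - (q - 1), by omega⟩
    have e1 : t' = q - 1 + (s + 1) := by omega
    refine ⟨s, ?_, ?_, by omega, by rw [if_neg (by omega)]⟩
    · rw [e1, hX1 s (by omega), hX1 (s + 1) (by omega), Q]
      congr 2; omega
    · rw [e1, hE1 s (by omega), hE1 (s + 1) (by omega), dl]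
      by_cases c : s % 11 = 10
      · rw [if_pos c, c, show (s + 1) / 11 = s / 11 + 1 by omega, show (s + 1) % 11 = 0 by omega]
        simp only [eps]
        norm_num
        ring
      · rw [if_neg c, show (s + 1) / 11 = s / 11 by omega,
          show (s + 1) % 11 = s % 11 + 1 by omega]
        ring
  by_cases c4 : t = 12 * q - 13
  · left
    have e0 : t = q - 1 + (11 * q - 12) := by omega
    have e1 : t' = 12 * q - 12 := by omega
    refine ⟨0, ?_, ?_, by omega, by rw [if_pos rfl]; exact c4⟩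
    · rw [e1, hX2, e0, hX1 _ (by omega), show (11 * q - 12) % 11 = 10 by omega]; simp
    · rw [e1, hE2 _ le_rfl, e0, hE1 _ (by omega), show (11 * q - 12) % 11 = 10 by omega,
        show (11 * q - 12) / 11 = q - 2 by omega, eps, if_pos rfl]
      linear_combination (-ω - 1) * hwq + (-ω - 1) * h2
  by_cases c5 : t = 12 * q - 12
  · right; left
    have e1 : t' = 12 * q - 11 + 0 := by omega
    refine ⟨10, ?_, ?_, by omega, by rw [if_neg (by omega), if_pos rfl]; exact c5⟩
    · rw [c5, hX2, e1, hX3 0 (by omega), Q]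
    · rw [hE2 _ (by omega), hE2 _ (by omega)]; simp
  by_cases c6 : t < 12 * q - 2
  · right; left
    obtain ⟨j, rfl⟩ : ∃ j, t = 12 * q - 11 + j := ⟨t - (12 * q - 11), by omega⟩
    have e1 : t' = 12 * q - 11 + (j + 1) := by omega
    refine ⟨j, ?_, ?_, by omega, by rw [if_neg (by omega), if_neg (by omega)]⟩
    · rw [hX3 j (by omega), e1, hX3 (j + 1) (by omega), Q, Nat.mod_eq_of_lt (by omega)]
    · rw [hE2 _ (by omega), hE2 _ (by omega)]; simp
  · right; right
    have e0 : t = 12 * q - 11 + 9 := by omega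
    have e1 : t' = 0 := by omega
    refine ⟨11 * q - 12, ?_, ?_, by omega, by rw [if_pos rfl]; omega⟩
    · rw [e0, hX3 9 (by omega), e1, hX0 0 (by omega), show (11 * q - 12) % 11 = 10 by omega, Q,
        show (10 + 1) % 11 = 0 by norm_num, hs2]
      group
    · rw [hE2 t (by omega), e1, hE0 0 (by omega), show (11 * q - 12) % 11 = 10 by omega,
        show (11 * q - 12) / 11 = q - 2 by omega, dl, if_pos rfl]
      linear_combination (ω) * hwq + (ω) * h2

theorem cyc_prod [Finite K] [Finite H] (hq : 4 ≤ q) (hK : Nat.card K = q) (hH : Nat.card H = 12)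
    (h2 : (2 : K) = 0) (hω1 : ω ^ (q - 1) = 1)
    (hω : ∀ a < q - 1, ∀ b < q - 1, ω ^ a = ω ^ b → a = b)
    (hne : ∀ i < 11, h i ≠ 1) (hinj : ∀ i < 11, ∀ j < 11, h i = h j → i = j)
    (hQne : ∀ i < 11, Q h i ≠ 1) (hQinj : ∀ i < 11, ∀ j < 11, Q h i = Q h j → i = j)
    (hs1 : h 10 = h 9 * h 0) (hs2 : h 10 = h 0 * h 9) :
    Cyc (H × Multiplicative K) (12 * q - 1)
      (fun t => (X q h t, Multiplicative.ofAdd (E q ω t))) := by
  have hω0 : ω ≠ 0 := by
    rintro rfl
    have := hω 1 (by omega) 2 (by omega) (by simp)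
    omega
  have hωne : ω ≠ 1 := by
    rintro rfl
    have := hω 0 (by omega) 1 (by omega) (by simp)
    omega
  have hω1' : ω + 1 ≠ 0 := by
    intro h
    apply hωne
    linear_combination h - h2
  have hpow : ∀ a, ω ^ a ≠ 0 := fun a => pow_ne_zero a hω0
  have heps : ∀ i, eps ω i ≠ 0 := by
    intro i
    unfold eps
    split_ifs
    · have : ω ^ 2 + ω = ω * (ω + 1) := by ring
      rw [this]; exact mul_ne_zero hω0 hω1'
    · exact one_ne_zero
    · exact hω0
  have hdl : ∀ i < 11, dl ω i ≠ 0 := by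
    intro i hi
    unfold dl
    split_ifs with hi'
    · exact neg_ne_zero.mpr (pow_ne_zero 2 hω0)
    · unfold eps
      rw [if_neg hi']
      by_cases c : i + 1 = 10
      · rw [if_pos c, if_neg (by omega)]
        have : ω ^ 2 + ω - ω = ω ^ 2 := by ring
        rw [this]; exact pow_ne_zero 2 hω0
      · rw [if_neg c]
        by_cases d : i % 2 = 0
        · rw [if_pos d, if_neg (by omega)]
          intro h; apply hω1'; linear_combination h + h2
        · rw [if_neg d, if_pos (by omega)]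
          intro h; apply hω1'; linear_combination -h + h2
  refine ⟨?_, by omega, ?_, ?_⟩
  · rw [Nat.card_prod, hH]
    have : Nat.card (Multiplicative K) = q := hK
    rw [this]; omega
  · intro t ht t' ht' heq
    have e1 : X q h t = X q h t' := congrArg Prod.fst heq
    have e2 : E q ω t = E q ω t' := by
      have := congrArg Prod.snd heq
      exact Multiplicative.ofAdd.injective this
    rcases class_vert (ω := ω) (h := h) t ht with
        ⟨a, x1, x2, x3, x4⟩ | ⟨s, x1, x2, x3, x4⟩ | ⟨j, x1, x2, x3, x4⟩ <;>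
      rcases class_vert (ω := ω) (h := h) t' ht' with
        ⟨a', y1, y2, y3, y4⟩ | ⟨s', y1, y2, y3, y4⟩ | ⟨j', y1, y2, y3, y4⟩ <;>
      rw [x1, y1] at e1 <;> rw [x2, y2] at e2
    · rw [pow_succ, pow_succ] at e2
      have := hω a x3 a' y3 (mul_right_cancel₀ hω0 e2)
      omega
    · exact absurd e1.symm (hne _ (Nat.mod_lt _ (by norm_num)))
    · exact absurd e1.symm (hne _ y3)
    · exact absurd e1 (hne _ (Nat.mod_lt _ (by norm_num)))
    · have h3 := hinj _ (Nat.mod_lt _ (by norm_num)) _ (Nat.mod_lt _ (by norm_num)) e1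
      rw [h3] at e2
      have := hω (s / 11) (by omega) (s' / 11) (by omega) (mul_right_cancel₀ (heps _) e2)
      omega
    · exact absurd e2 (mul_ne_zero (hpow _) (heps _))
    · exact absurd e1 (hne _ x3)
    · exact absurd e2.symm (mul_ne_zero (hpow _) (heps _))
    · have := hinj _ x3 _ y3 e1
      rw [x4, y4, this]
  · intro t ht t' ht' heq
    have nxt : ∀ t < 12 * q - 1, ((t + 1) % (12 * q - 1) = t + 1 ∧ t + 1 < 12 * q - 1) ∨
        ((t + 1) % (12 * q - 1) = 0 ∧ t + 1 = 12 * q - 1) := by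
      intro k hk
      by_cases h : k + 1 < 12 * q - 1
      · left; exact ⟨Nat.mod_eq_of_lt h, h⟩
      · right
        have : k + 1 = 12 * q - 1 := by omega
        exact ⟨by rw [this]; exact Nat.mod_self _, this⟩
    have e1 : (X q h t)⁻¹ * X q h ((t + 1) % (12 * q - 1)) =
        (X q h t')⁻¹ * X q h ((t' + 1) % (12 * q - 1)) := congrArg Prod.fst heq
    have e2 : E q ω ((t + 1) % (12 * q - 1)) - E q ω t =
        E q ω ((t' + 1) % (12 * q - 1)) - E q ω t' := by
      have h3 := congrArg Prod.snd heq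
      have h4 := congrArg Multiplicative.toAdd h3
      simp only [Prod.snd_mul, Prod.snd_inv, toAdd_mul, toAdd_inv, toAdd_ofAdd] at h4
      linear_combination h4
    rcases class_col hq h2 hω1 hs1 hs2 t _ ht (nxt t ht) with
        ⟨a, x1, x2, x3, x4⟩ | ⟨s, x1, x2, x3, x4⟩ | ⟨j, x1, x2, x3, x4⟩ <;>
      rcases class_col hq h2 hω1 hs1 hs2 t' _ ht' (nxt t' ht') with
        ⟨a', y1, y2, y3, y4⟩ | ⟨s', y1, y2, y3, y4⟩ | ⟨j', y1, y2, y3, y4⟩ <;>
      rw [x1, y1] at e1 <;> rw [x2, y2] at e2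
    · have := hω a x3 a' y3 (mul_right_cancel₀ hω1' e2)
      rw [x4, y4, this]
    · exact absurd e1.symm (hQne _ y3)
    · exact absurd e1.symm (hQne _ (Nat.mod_lt _ (by norm_num)))
    · exact absurd e1 (hQne _ x3)
    · have := hQinj _ x3 _ y3 e1
      rw [x4, y4, this]
    · exact absurd e2.symm (mul_ne_zero (hpow _) (hdl _ (Nat.mod_lt _ (by norm_num))))
    · exact absurd e1 (hQne _ (Nat.mod_lt _ (by norm_num)))
    · exact absurd e2 (mul_ne_zero (hpow _) (hdl _ (Nat.mod_lt _ (by norm_num))))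
    · have h3 := hQinj _ (Nat.mod_lt _ (by norm_num)) _ (Nat.mod_lt _ (by norm_num)) e1
      rw [h3] at e2
      have := hω (j / 11) (by omega) (j' / 11) (by omega)
        (mul_right_cancel₀ (hdl _ (Nat.mod_lt _ (by norm_num))) e2)
      have h5 : j = j' := by omega
      rw [x4, y4, h5]

end construction


/-- `A₄` -/
abbrev A4 : Type := alternatingGroup (Fin 4)

def p0123 : A4 := ⟨⟨![0, 1, 2, 3], ![0, 1, 2, 3], by decide, by decide⟩,
  Equiv.Perm.mem_alternatingGroup.mpr (by decide)⟩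
def p0231 : A4 := ⟨⟨![0, 2, 3, 1], ![0, 3, 1, 2], by decide, by decide⟩,
  Equiv.Perm.mem_alternatingGroup.mpr (by decide)⟩
def p0312 : A4 := ⟨⟨![0, 3, 1, 2], ![0, 2, 3, 1], by decide, by decide⟩,
  Equiv.Perm.mem_alternatingGroup.mpr (by decide)⟩
def p1032 : A4 := ⟨⟨![1, 0, 3, 2], ![1, 0, 3, 2], by decide, by decide⟩,
  Equiv.Perm.mem_alternatingGroup.mpr (by decide)⟩
def p1203 : A4 := ⟨⟨![1, 2, 0, 3], ![2, 0, 1, 3], by decide, by decide⟩,
  Equiv.Perm.mem_alternatingGroup.mpr (by decide)⟩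
def p1320 : A4 := ⟨⟨![1, 3, 2, 0], ![3, 0, 2, 1], by decide, by decide⟩,
  Equiv.Perm.mem_alternatingGroup.mpr (by decide)⟩
def p2013 : A4 := ⟨⟨![2, 0, 1, 3], ![1, 2, 0, 3], by decide, by decide⟩,
  Equiv.Perm.mem_alternatingGroup.mpr (by decide)⟩
def p2130 : A4 := ⟨⟨![2, 1, 3, 0], ![3, 1, 0, 2], by decide, by decide⟩,
  Equiv.Perm.mem_alternatingGroup.mpr (by decide)⟩
def p2301 : A4 := ⟨⟨![2, 3, 0, 1], ![2, 3, 0, 1], by decide, by decide⟩,
  Equiv.Perm.mem_alternatingGroup.mpr (by decide)⟩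
def p3021 : A4 := ⟨⟨![3, 0, 2, 1], ![1, 3, 2, 0], by decide, by decide⟩,
  Equiv.Perm.mem_alternatingGroup.mpr (by decide)⟩
def p3102 : A4 := ⟨⟨![3, 1, 0, 2], ![2, 1, 3, 0], by decide, by decide⟩,
  Equiv.Perm.mem_alternatingGroup.mpr (by decide)⟩
def p3210 : A4 := ⟨⟨![3, 2, 1, 0], ![3, 2, 1, 0], by decide, by decide⟩,
  Equiv.Perm.mem_alternatingGroup.mpr (by decide)⟩

def v : Fin 11 → A4 := ![p3210, p1203, p2013, p1320, p3021, p3102, p2130, p0231, p0312, p1032, p2301]

def hh (i : ℕ) : A4 := if hi : i < 11 then v ⟨i, hi⟩ else 1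

def v2 : Fin 23 → A4 × Multiplicative (ZMod 2) :=
  ![(p0123, Multiplicative.ofAdd 1), (p1203, Multiplicative.ofAdd 1), (p1320, Multiplicative.ofAdd 1), (p3102, Multiplicative.ofAdd 0), (p1203, Multiplicative.ofAdd 0), (p0312, Multiplicative.ofAdd 0), (p0231, Multiplicative.ofAdd 1), (p3210, Multiplicative.ofAdd 0), (p2301, Multiplicative.ofAdd 0), (p2301, Multiplicative.ofAdd 1), (p2013, Multiplicative.ofAdd 1), (p3021, Multiplicative.ofAdd 1), (p1320, Multiplicative.ofAdd 0), (p2130, Multiplicative.ofAdd 0), (p1032, Multiplicative.ofAdd 1), (p2130, Multiplicative.ofAdd 1), (p0312, Multiplicative.ofAdd 1), (p1032, Multiplicative.ofAdd 0), (p3021, Multiplicative.ofAdd 0), (p3210, Multiplicative.ofAdd 1), (p0231, Multiplicative.ofAdd 0), (p3102, Multiplicative.ofAdd 1), (p2013, Multiplicative.ofAdd 0)]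

def h2 (i : ℕ) : A4 × Multiplicative (ZMod 2) := if hi : i < 23 then v2 ⟨i, hi⟩ else 1

lemma card_A4 : Nat.card A4 = 12 := by
  rw [Nat.card_eq_fintype_card]; decide

lemma v_inj : ∀ i j : Fin 11, v i = v j → i = j := by decide

lemma v_ne : ∀ i : Fin 11, v i ≠ 1 := by decide

lemma vQ_inj : ∀ i j : Fin 11, (v i)⁻¹ * v (i + 1) = (v j)⁻¹ * v (j + 1) → i = j := by decide

lemma vQ_ne : ∀ i : Fin 11, (v i)⁻¹ * v (i + 1) ≠ 1 := by decide

lemma v_s1 : v 10 = v 9 * v 0 := by decide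

lemma v_s2 : v 10 = v 0 * v 9 := by decide

lemma v2_inj : ∀ i j : Fin 23, v2 i = v2 j → i = j := by decide

lemma v2Q_inj : ∀ i j : Fin 23, (v2 i)⁻¹ * v2 (i + 1) = (v2 j)⁻¹ * v2 (j + 1) → i = j := by
  decide

lemma cyc_of_fin {G : Type*} [Group G] (n : ℕ) (hn : 1 ≤ n) (w : Fin (n + 1) → G) (g : ℕ → G)
    (hg : ∀ i (hi : i < n + 1), g i = w ⟨i, hi⟩) (hc : Nat.card G = n + 2)
    (h1 : ∀ i j, w i = w j → i = j)
    (h2 : ∀ i j, (w i)⁻¹ * w (i + 1) = (w j)⁻¹ * w (j + 1) → i = j) : Cyc G (n + 1) g := by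
  refine ⟨hc, by omega, ?_, ?_⟩
  · intro i hi j hj hij
    rw [hg i hi, hg j hj] at hij
    exact congrArg Fin.val (h1 _ _ hij)
  · have key : ∀ i (hi : i < n + 1), g ((i + 1) % (n + 1)) = w (⟨i, hi⟩ + 1) := by
      intro i hi
      rw [hg _ (Nat.mod_lt _ (by omega))]
      congr 1
      apply Fin.ext
      simp [Fin.val_add]
    intro i hi j hj hij
    rw [key i hi, key j hj, hg i hi, hg j hj] at hij
    exact congrArg Fin.val (h2 _ _ hij)

lemma cyc_A4 : Cyc A4 11 hh :=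
  cyc_of_fin 10 (by norm_num) v hh (fun i hi => by rw [hh, dif_pos hi]) card_A4 v_inj vQ_inj

lemma cyc_A4C2 : Cyc (A4 × Multiplicative (ZMod 2)) 23 h2 := by
  refine cyc_of_fin 22 (by norm_num) v2 h2 (fun i hi => by rw [h2, dif_pos hi]) ?_ v2_inj v2Q_inj
  rw [Nat.card_prod, card_A4]
  simp

lemma hh_val (i : ℕ) (hi : i < 11) : hh i = v ⟨i, hi⟩ := by rw [hh, dif_pos hi]

lemma Q_val (i : ℕ) (hi : i < 11) : Q hh i = (v ⟨i, hi⟩)⁻¹ * v (⟨i, hi⟩ + 1) := by
  rw [Q, hh_val i hi, hh_val _ (Nat.mod_lt _ (by norm_num))]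
  congr 2

theorem cyc_A4K (K : Type) [Field K] [Finite K] (h4 : 4 ≤ Nat.card K) (h2 : (2 : K) = 0) :
    ∃ (N : ℕ) (g : ℕ → A4 × Multiplicative K), Cyc (A4 × Multiplicative K) N g := by
  obtain ⟨u, hu⟩ := IsCyclic.exists_generator (α := Kˣ)
  have ho : orderOf u = Nat.card K - 1 := by
    rw [orderOf_eq_card_of_forall_mem_zpowers hu, Nat.card_units]
  refine ⟨_, _, cyc_prod (q := Nat.card K) (ω := (u : K)) (h := hh) h4 rfl card_A4 h2 ?_ ?_ ?_ ?_
    ?_ ?_ ?_ ?_⟩
  · rw [← Units.val_pow_eq_pow_val, ← ho, pow_orderOf_eq_one, Units.val_one]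
  · intro a ha b hb hab
    rw [← ho] at ha hb
    apply pow_injOn_Iio_orderOf ha hb
    apply Units.ext
    simpa using hab
  · intro i hi
    rw [hh_val i hi]; exact v_ne _
  · intro i hi j hj hij
    rw [hh_val i hi, hh_val j hj] at hij
    exact congrArg Fin.val (v_inj _ _ hij)
  · intro i hi
    rw [Q_val i hi]; exact vQ_ne _
  · intro i hi j hj hij
    rw [Q_val i hi, Q_val j hj] at hij
    exact congrArg Fin.val (vQ_inj _ _ hij)
  · rw [hh_val 10 (by norm_num), hh_val 9 (by norm_num), hh_val 0 (by norm_num)]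
    exact v_s1
  · rw [hh_val 10 (by norm_num), hh_val 9 (by norm_num), hh_val 0 (by norm_num)]
    exact v_s2

/-- `A₄ × (C₂)^m` is R-sequenceable for every `m ≥ 0`. -/
theorem result (m : ℕ) :
    RSequenceable (alternatingGroup (Fin 4) × (Fin m → Multiplicative (ZMod 2))) := by
  rcases m with _ | _ | m
  · exact (cyc_A4.map (MulEquiv.prodUnique (M := A4)
      (N := (Fin 0 → Multiplicative (ZMod 2)))).symm).rseq
  · exact (cyc_A4C2.map (MulEquiv.prodCongr (MulEquiv.refl A4)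
      (MulEquiv.funUnique (Fin 1) (Multiplicative (ZMod 2))).symm)).rseq
  · have hcard : Nat.card (GaloisField 2 (m + 2)) = 2 ^ (m + 2) := GaloisField.card 2 _ (by omega)
    obtain ⟨N, g, hg⟩ := cyc_A4K (GaloisField 2 (m + 2))
      (by rw [hcard]; calc 4 = 2 ^ 2 := by norm_num
            _ ≤ 2 ^ (m + 2) := Nat.pow_le_pow_right (by norm_num) (by omega))
      (by exact_mod_cast CharP.cast_eq_zero (GaloisField 2 (m + 2)) 2)
    have e1 : GaloisField 2 (m + 2) ≃ₗ[ZMod 2] (Fin (m + 2) → ZMod 2) :=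
      LinearEquiv.ofFinrankEq _ _ (by
        rw [GaloisField.finrank 2 (by omega), Module.finrank_fin_fun])
    have e2 : Multiplicative (GaloisField 2 (m + 2)) ≃* (Fin (m + 2) → Multiplicative (ZMod 2)) :=
      (AddEquiv.toMultiplicative e1.toAddEquiv).trans
        (MulEquiv.piMultiplicative (fun _ => ZMod 2))
    exact (hg.map (MulEquiv.prodCongr (MulEquiv.refl A4) e2)).rseq

end Pool.Agent.Results.MP_0ef4f9_co.ElementaryAbelianFactor
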